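import Pool.Agent.Helper79.QG.DIR

set_option autoImplicit false

/-!
Coordinates of short lattice vectors are bounded when the lattice has no very short vector.
-/

namespace Helper79.QG

open QD

variable {k : Type} [Field k]

theorem nsum {n : ℕ} (a : AbsoluteValue k ℝ) (N : (Fin n → k) → ℝ)
    (hs : ∀ (c : k) x, N (c • x) = a c * N x) (ha : ∀ x y, N (x + y) ≤ N x + N y)
    (c : Fin n → k) : N c ≤ ∑ j, a (c j) * N (Pi.single j 1) := by
  have h0 : N 0 = 0 := by
    have := hs 0 0
    rwa [zero_smul, map_zero, zero_mul] at this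
  have h1 : ∀ s : Finset (Fin n), N (∑ j ∈ s, c j • (Pi.single j 1 : Fin n → k)) ≤
      ∑ j ∈ s, a (c j) * N (Pi.single j 1) := by
    intro s
    classical
    induction s using Finset.induction_on with
    | empty => simp [h0]
    | insert i s hi ih =>
      rw [Finset.sum_insert hi, Finset.sum_insert hi]
      refine (ha _ _).trans ?_
      rw [hs]
      linarith
  have h2 : c = ∑ j, c j • (Pi.single j 1 : Fin n → k) := by
    ext i
    simp [Finset.sum_apply, Pi.single_apply]
  calc N c = N (∑ j, c j • (Pi.single j 1 : Fin n → k)) := by rw [← h2]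
    _ ≤ _ := h1 _

/-- The coordinate bound. -/
theorem mnk (A : Glob k)
    (hV : ∀ v0, ∃ w : kˣ, (w : k) ∈ A.B ∧ ((w⁻¹ : kˣ) : k) ∈ A.B ∧ 1 < A.av v0 (w : k) ∧
      ∀ v, v ≠ v0 → A.av v (w : k) < 1) (n : ℕ) :
    ∃ C : ℕ, ∀ N : A.I → (Fin n → k) → ℝ,
      (∀ v (c : k) x, N v (c • x) = A.av v c * N v x) →
      (∀ v x y, N v (x + y) ≤ N v x + N v y) →
      (∀ x : Fin n → k, (∀ j, x j ∈ A.B) → x ≠ 0 → ∃ v, 1 < N v x) →
      ∀ κ : ℕ, (∀ v j, N v (Pi.single j 1) ≤ 2 ^ κ) → ∀ y : Fin n → k, (∀ j, y j ∈ A.B) →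
        (∀ v, N v y ≤ 2 ^ κ) → ∀ v j, A.av v (y j) ≤ 2 ^ (C * (κ + 1)) := by
  obtain ⟨C0, hC0⟩ := dir A hV n
  refine ⟨C0 * (n + 2) + 1, ?_⟩
  intro N hs ha hb κ hk y hy hyk v0 j
  have hnn : ∀ v x, 0 ≤ N v x := by
    intro v x
    have h0 : N v 0 = 0 := by
      have := hs v 0 0
      rwa [zero_smul, map_zero, zero_mul] at this
    have h1 : N v (-x) = N v x := by
      have := hs v (-1) x
      rwa [neg_one_smul, (A.av v).map_neg, map_one, one_mul] at this
    have h2 := ha v x (-x)
    rw [add_neg_cancel, h0, h1] at h2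
    linarith
  -- the largest coordinate
  obtain ⟨j0, -, hmax⟩ := Finset.exists_max_image Finset.univ (fun j => A.av v0 (y j))
    ⟨j, Finset.mem_univ j⟩
  refine (hmax j (Finset.mem_univ j)).trans ?_
  by_contra hcon
  push Not at hcon
  set Y := A.av v0 (y j0) with hY
  have hYpos : 0 < Y := lt_of_le_of_lt (by positivity) hcon
  have hy0 : y j0 ≠ 0 := by
    intro h
    rw [hY, h, map_zero] at hYpos
    exact lt_irrefl _ hYpos
  set e := κ + n + 1 with he
  obtain ⟨q, z, hqB, hq0, hzB, hz, hq, hoth⟩ := hC0 v0 e (fun j => y j / y j0) (by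
    intro i
    rw [map_div₀]
    exact div_le_one_of_le₀ (hmax i (Finset.mem_univ i)) hYpos.le)
  -- the short vector
  set X : Fin n → k := fun i => if i = j0 then q else z i with hX
  have hXB : ∀ i, X i ∈ A.B := by
    intro i
    simp only [hX]
    split_ifs
    exacts [hqB, hzB i]
  have hX0 : X ≠ 0 := by
    intro h
    have := congrFun h j0
    simp only [hX, if_true, Pi.zero_apply] at this
    exact hq0 this
  obtain ⟨v, hv⟩ := hb X hXB hX0
  have hn2 : (n : ℝ) ≤ 2 ^ n := by exact_mod_cast (Nat.lt_two_pow_self (n := n)).le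
  have he2 : (2 : ℝ) ^ e = 2 ^ κ * 2 ^ n * 2 := by rw [he, pow_succ, pow_add]
  have hepos : (0 : ℝ) < 2 ^ e := by positivity
  -- a general bound: coordinates of size at most `2 ^ -e` give norm at most `1 / 2`
  have hgen : ∀ (v : A.I) (c : Fin n → k), (∀ i, A.av v (c i) * 2 ^ e ≤ 1) → N v c * 2 ≤ 1 := by
    intro v c hc
    have h1 := nsum (A.av v) (N v) (hs v) (ha v) c
    have h2 : ∑ i, A.av v (c i) * N v (Pi.single i 1) ≤ ∑ _i : Fin n, (1 / 2 ^ e) * 2 ^ κ := by
      refine Finset.sum_le_sum fun i _ => ?_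
      have h3 : A.av v (c i) ≤ 1 / 2 ^ e := by
        rw [le_div_iff₀ hepos]; exact hc i
      exact mul_le_mul h3 (hk v i) (hnn _ _) (by positivity)
    rw [Finset.sum_const, Finset.card_univ, Fintype.card_fin, nsmul_eq_mul] at h2
    have h4 : (n : ℝ) * (1 / 2 ^ e * 2 ^ κ) * 2 ≤ 1 := by
      rw [he2]
      have hk0 : (0 : ℝ) < 2 ^ κ := by positivity
      have hn0 : (0 : ℝ) < 2 ^ n := by positivity
      have : (n : ℝ) * (1 / (2 ^ κ * 2 ^ n * 2) * 2 ^ κ) * 2 = n / 2 ^ n := by
        field_simp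
      rw [this]
      exact div_le_one_of_le₀ hn2 hn0.le
    linarith
  by_cases hvv : v = v0
  · subst hvv
    -- decomposition at the place
    set r : Fin n → k := fun i => if i = j0 then 0 else -(q * (y i / y j0) - z i) with hr
    have hdec : X = (q / y j0) • y + r := by
      ext i
      simp only [hX, hr, Pi.add_apply, Pi.smul_apply, smul_eq_mul]
      split_ifs with hi
      · subst hi
        rw [div_mul_cancel₀ _ hy0, add_zero]
      · field_simp
        ring
    have h1 : N v r * 2 ≤ 1 := by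
      apply hgen
      intro i
      simp only [hr]
      split_ifs
      · rw [map_zero, zero_mul]; norm_num
      · rw [(A.av v).map_neg]; exact hz i
    have h2 : N v ((q / y j0) • y) * 2 ≤ 1 := by
      rw [hs, map_div₀, ← hY]
      have h3 : A.av v q / Y * N v y ≤ 2 ^ (C0 * (e + 1)) / Y * 2 ^ κ := by
        have := hnn v y
        gcongr
        exact hyk v
      have h4 : (2 : ℝ) ^ (C0 * (e + 1)) * 2 ^ κ * 2 ≤ Y := by
        refine le_trans ?_ hcon.le
        rw [← pow_add, ← pow_succ]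
        refine pow_le_pow_right₀ (by norm_num) ?_
        rw [he]
        nlinarith [Nat.zero_le (C0 * n * κ), Nat.zero_le (C0 * κ)]
      have h5 : (2 : ℝ) ^ (C0 * (e + 1)) / Y * 2 ^ κ * 2 ≤ 1 := by
        have : (2 : ℝ) ^ (C0 * (e + 1)) / Y * 2 ^ κ * 2 = 2 ^ (C0 * (e + 1)) * 2 ^ κ * 2 / Y := by
          ring
        rw [this]
        exact div_le_one_of_le₀ h4 hYpos.le
      linarith
    have h6 := ha v ((q / y j0) • y) r
    rw [← hdec] at h6
    linarith
  · have h1 : N v X * 2 ≤ 1 := by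
      apply hgen
      intro i
      simp only [hX]
      split_ifs
      · exact (hoth v hvv).1
      · exact (hoth v hvv).2 i
    linarith [hnn v X]

end Helper79.QG
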