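import Pool.Agent.Helper24.QD.Glob

set_option autoImplicit false

/-!
Two facts about the data `Glob k` (a cocompact discrete subring with finitely many absolute
values): a non-zero element of `B` is large somewhere, and simultaneous approximation (Dirichlet).
-/

namespace Helper79.QG

open QD

variable {k : Type} [Field k]

/-- A non-zero element of `B` is large at some place. -/
theorem pf (A : Glob k) {β : k} (hβ : β ∈ A.B) (h0 : β ≠ 0) : ∃ i, 1 ≤ A.av i β := by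
  by_contra hcon
  push Not at hcon
  have hfin := A.hB 1
  have hmem : ∀ n : ℕ, β ^ n ∈ {β : k | β ∈ A.B ∧ ∀ i, A.av i β ≤ ((1 : ℕ) : ℝ)} := by
    intro n
    refine ⟨A.B.pow_mem hβ n, fun i => ?_⟩
    rw [map_pow]
    push_cast
    exact pow_le_one₀ ((A.av i).nonneg _) (hcon i).le
  have hni : ¬ Function.Injective (fun n : ℕ => β ^ n) := by
    intro hinj
    exact Set.infinite_range_of_injective hinj
      (hfin.subset (by rintro _ ⟨n, rfl⟩; exact hmem n))
  apply hni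
  intro a b hab
  have h1 := congrArg (A.av A.i0) hab
  simp only [map_pow] at h1
  exact pow_right_injective₀ ((A.av A.i0).pos h0) (hcon A.i0).ne h1

/-- Digits with respect to `w` at the place `v0`. -/
theorem digits (A : Glob k) (v0 : A.I) (w : k) (hw1 : 1 ≤ A.av v0 w) (R : ℕ)
    (hR : A.av v0 w ≤ R) (s : ℕ) :
    ∃ f : k → (Fin s → {β : k | β ∈ A.B ∧ ∀ i, A.av i β ≤ ((R + 1 : ℕ) : ℝ)}),
      ∀ x y, A.av v0 x ≤ 1 → A.av v0 y ≤ 1 → f x = f y →
        A.av v0 (x - y) * A.av v0 w ^ s ≤ 2 := by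
  induction s with
  | zero =>
    refine ⟨fun _ i => i.elim0, ?_⟩
    intro x y hx hy _
    have h1 : A.av v0 (x - y) ≤ A.av v0 x + A.av v0 y := by
      calc A.av v0 (x - y) = A.av v0 (x + -y) := by rw [sub_eq_add_neg]
        _ ≤ A.av v0 x + A.av v0 (-y) := (A.av v0).add_le _ _
        _ = _ := by rw [(A.av v0).map_neg]
    rw [pow_zero, mul_one]
    linarith
  | succ s ih =>
    obtain ⟨f, hf⟩ := ih
    have hch : ∀ x : k, ∃ β : {β : k | β ∈ A.B ∧ ∀ i, A.av i β ≤ ((R + 1 : ℕ) : ℝ)},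
        A.av v0 x ≤ 1 → A.av v0 (w * x - β) ≤ 1 := by
      intro x
      by_cases hx : A.av v0 x ≤ 1
      · obtain ⟨β, hβ, hb⟩ := A.hA (fun v => if v = v0 then w * x else 0)
        have h0 := hb v0
        simp only [if_true] at h0
        refine ⟨⟨β, hβ, fun i => ?_⟩, fun _ => h0⟩
        by_cases hi : i = v0
        · subst hi
          have h1 : A.av i β ≤ A.av i (w * x) + A.av i (w * x - β) := by
            calc A.av i β = A.av i (w * x + -(w * x - β)) := by congr 1; ring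
              _ ≤ A.av i (w * x) + A.av i (-(w * x - β)) := (A.av i).add_le _ _
              _ = _ := by rw [(A.av i).map_neg]
          have h2 : A.av i (w * x) ≤ R := by
            rw [map_mul]
            calc A.av i w * A.av i x ≤ A.av i w * 1 :=
                  mul_le_mul_of_nonneg_left hx ((A.av i).nonneg _)
              _ ≤ R := by rw [mul_one]; exact hR
          push_cast
          linarith
        · have h1 := hb i
          simp only [hi, if_false, zero_sub, (A.av i).map_neg] at h1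
          push_cast
          have : (0 : ℝ) ≤ R := Nat.cast_nonneg _
          linarith
      · exact ⟨⟨0, A.B.zero_mem, fun i => by rw [map_zero]; positivity⟩, fun h => absurd h hx⟩
    choose β hβ using hch
    refine ⟨fun x => Fin.cons (β x) (f (w * x - β x)), ?_⟩
    intro x y hx hy hxy
    have h1 : β x = β y := by simpa using congrFun hxy 0
    have h2 : f (w * x - β x) = f (w * y - β y) := by
      have := congrArg Fin.tail hxy
      simpa using this
    have h3 := hf _ _ (hβ x hx) (hβ y hy) h2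
    have h4 : w * x - ((β x : k)) - (w * y - (β y : k)) = w * (x - y) := by
      rw [h1]; ring
    rw [h4, map_mul] at h3
    calc A.av v0 (x - y) * A.av v0 w ^ (s + 1)
        = A.av v0 w * A.av v0 (x - y) * A.av v0 w ^ s := by ring
      _ ≤ 2 := h3

/-- `1 + W + ⋯ + W ^ (t - 1) < W ^ t` for `W ≥ 2`. -/
theorem geo {W : ℝ} (hW : 2 ≤ W) (t : ℕ) : ∑ i ∈ Finset.range t, W ^ i + 1 ≤ W ^ t := by
  induction t with
  | zero => simp
  | succ t ih =>
    rw [Finset.sum_range_succ, pow_succ]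
    have : (0 : ℝ) ≤ W ^ t := by positivity
    nlinarith

/-- `1 + W + ⋯ + W ^ (t - 1) ≤ 2` for `0 ≤ W ≤ 1 / 2`. -/
theorem geo' {W : ℝ} (h0 : 0 ≤ W) (hW : W * 2 ≤ 1) (t : ℕ) :
    ∑ i ∈ Finset.range t, W ^ i ≤ 2 := by
  have h : ∀ t : ℕ, ∑ i ∈ Finset.range t, W ^ i + 2 * W ^ t ≤ 2 := by
    intro t
    induction t with
    | zero => simp
    | succ t ih =>
      rw [Finset.sum_range_succ, pow_succ]
      have : (0 : ℝ) ≤ W ^ t := by positivity
      nlinarith
  have := h t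
  have h2 : (0 : ℝ) ≤ W ^ t := by positivity
  linarith

/-- The absolute value of a sum with digits of absolute value at most `1`. -/
theorem sum_av (a : AbsoluteValue k ℝ) (w : k) (d : ℕ → k) (hd : ∀ i, a (d i) ≤ 1) (t : ℕ) :
    a (∑ i ∈ Finset.range t, d i * w ^ i) ≤ ∑ i ∈ Finset.range t, a w ^ i := by
  refine (a.sum_le _ _).trans (Finset.sum_le_sum fun i _ => ?_)
  rw [map_mul, map_pow]
  calc a (d i) * a w ^ i ≤ 1 * a w ^ i :=
        mul_le_mul_of_nonneg_right (hd i) (pow_nonneg (a.nonneg _) _)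
    _ = _ := one_mul _

theorem av_d (a : AbsoluteValue k ℝ) {x : k} (h : x = 0 ∨ x = 1 ∨ x = -1) : a x ≤ 1 := by
  rcases h with h | h | h
  · rw [h, map_zero]; norm_num
  · rw [h, map_one]
  · rw [h, a.map_neg, map_one]

/-- A digit sum that is not trivial is non-zero. -/
theorem ne (a : AbsoluteValue k ℝ) (w : k) (hw : 2 ≤ a w) (d : ℕ → k)
    (hd : ∀ i, d i = 0 ∨ d i = 1 ∨ d i = -1) (t : ℕ) (h : ∃ i < t, d i ≠ 0) :
    ∑ i ∈ Finset.range t, d i * w ^ i ≠ 0 := by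
  induction t with
  | zero => obtain ⟨i, hi, _⟩ := h; omega
  | succ t ih =>
    rw [Finset.sum_range_succ]
    by_cases h0 : d t = 0
    · rw [h0, zero_mul, add_zero]
      apply ih
      obtain ⟨i, hi, hdi⟩ := h
      refine ⟨i, ?_, hdi⟩
      rcases Nat.lt_succ_iff_lt_or_eq.mp hi with h1 | h1
      · exact h1
      · exact absurd (h1 ▸ h0) hdi
    · intro hs
      have h1 : a (d t) = 1 := by
        rcases hd t with h2 | h2 | h2
        · exact absurd h2 h0
        · rw [h2, map_one]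
        · rw [h2, a.map_neg, map_one]
      have h2 : a (d t * w ^ t) = a (∑ i ∈ Finset.range t, d i * w ^ i) := by
        have h3 : d t * w ^ t = -(∑ i ∈ Finset.range t, d i * w ^ i) := by
          rw [← sub_eq_zero, sub_neg_eq_add, add_comm]; exact hs
        rw [h3, a.map_neg]
      rw [map_mul, map_pow, h1, one_mul] at h2
      have h3 := sum_av a w d (fun i => av_d a (hd i)) t
      have h4 := geo hw t
      linarith

/-- The digit function of a finite 0/1 word. -/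
def dg {t : ℕ} (δ : Fin t → Bool) (i : ℕ) : k := if h : i < t then (if δ ⟨i, h⟩ then 1 else 0) else 0

theorem dg_diff {t : ℕ} (δ δ' : Fin t → Bool) (i : ℕ) :
    (dg δ i - dg δ' i : k) = 0 ∨ (dg δ i - dg δ' i : k) = 1 ∨ (dg δ i - dg δ' i : k) = -1 := by
  unfold dg
  split_ifs <;> simp

theorem dg_ne {t : ℕ} {δ δ' : Fin t → Bool} (h : δ ≠ δ') :
    ∃ i < t, (dg δ i - dg δ' i : k) ≠ 0 := by
  obtain ⟨i, hi⟩ := Function.ne_iff.mp h
  refine ⟨i, i.2, ?_⟩
  unfold dg
  rw [dif_pos i.2, dif_pos i.2]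
  cases h1 : δ i <;> cases h2 : δ' i <;> simp_all

/-- Dirichlet at one place with a strong unit. -/
theorem dir_one (A : Glob k) (v0 : A.I) (w : k) (hwB : w ∈ A.B) (hw : 2 ≤ A.av v0 w)
    (hv : ∀ v, v ≠ v0 → A.av v w * 2 ≤ 1) (n : ℕ) :
    ∃ C : ℕ, ∀ (e : ℕ) (x : Fin n → k), (∀ j, A.av v0 (x j) ≤ 1) →
      ∃ (q : k) (z : Fin n → k), q ∈ A.B ∧ q ≠ 0 ∧ (∀ j, z j ∈ A.B) ∧
        (∀ j, A.av v0 (q * x j - z j) * 2 ^ e ≤ 1) ∧ A.av v0 q ≤ 2 ^ (C * (e + 1)) ∧
        ∀ v, v ≠ v0 → A.av v q * 2 ^ e ≤ 1 ∧ ∀ j, A.av v (z j) * 2 ^ e ≤ 1 := by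
  obtain ⟨R, hR⟩ := exists_nat_ge (A.av v0 w)
  have hfin := A.hB (R + 1)
  have : Fintype {β : k | β ∈ A.B ∧ ∀ i, A.av i β ≤ ((R + 1 : ℕ) : ℝ)} := hfin.fintype
  set b := Fintype.card {β : k | β ∈ A.B ∧ ∀ i, A.av i β ≤ ((R + 1 : ℕ) : ℝ)} with hb
  have hw0 : w ≠ 0 := by
    rintro rfl
    rw [map_zero] at hw
    norm_num at hw
  refine ⟨R * (2 + 2 * b * n), ?_⟩
  intro e x hx
  set s := 2 * (e + 1) with hs
  set t := b * s * n + 1 with ht
  obtain ⟨f, hf⟩ := digits A v0 w (by linarith) R hR s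
  -- choice of the nearest elements
  set Q : (Fin t → Bool) → k := fun δ => ∑ i ∈ Finset.range t, dg δ i * w ^ i with hQ
  have hc : ∀ (δ : Fin t → Bool) (j : Fin n), ∃ c ∈ A.B, A.av v0 (Q δ * x j - c) ≤ 1 ∧
      ∀ v, v ≠ v0 → A.av v c ≤ 1 := by
    intro δ j
    obtain ⟨c, hcB, hc⟩ := A.hA (fun v => if v = v0 then Q δ * x j else 0)
    refine ⟨c, hcB, ?_, ?_⟩
    · have := hc v0
      simpa using this
    · intro v hvv
      have := hc v
      simp only [hvv, if_false, zero_sub, (A.av v).map_neg] at this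
      exact this
  choose c hcB hc1 hc2 using hc
  have hcard : Fintype.card (Fin n → Fin s →
      {β : k | β ∈ A.B ∧ ∀ i, A.av i β ≤ ((R + 1 : ℕ) : ℝ)}) < Fintype.card (Fin t → Bool) := by
    rw [Fintype.card_fun, Fintype.card_fun, Fintype.card_fun, Fintype.card_fin, Fintype.card_fin,
      Fintype.card_fin, Fintype.card_bool, ← hb, ← pow_mul]
    have h1 : b < 2 ^ b := Nat.lt_two_pow_self
    calc b ^ (s * n) ≤ (2 ^ b) ^ (s * n) := Nat.pow_le_pow_left h1.le _
      _ = 2 ^ (b * s * n) := by rw [← pow_mul, ← mul_assoc b s n]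
      _ < 2 ^ t := Nat.pow_lt_pow_right (by norm_num) (by omega)
  obtain ⟨δ, δ', hne, hff⟩ := Fintype.exists_ne_map_eq_of_card_lt
    (fun (δ : Fin t → Bool) (j : Fin n) => f (Q δ * x j - c δ j)) hcard
  have hq' : Q δ - Q δ' = ∑ i ∈ Finset.range t, (dg δ i - dg δ' i : k) * w ^ i := by
    simp only [hQ]
    rw [← Finset.sum_sub_distrib]
    exact Finset.sum_congr rfl fun i _ => by ring
  have hq0 : Q δ - Q δ' ≠ 0 := by
    rw [hq']
    exact ne (A.av v0) w hw _ (fun i => dg_diff δ δ' i) t (dg_ne hne)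
  have hQB : ∀ δ : Fin t → Bool, Q δ ∈ A.B := by
    intro δ
    refine A.B.sum_mem fun i _ => A.B.mul_mem ?_ (A.B.pow_mem hwB i)
    unfold dg
    split_ifs
    exacts [A.B.one_mem, A.B.zero_mem, A.B.zero_mem]
  refine ⟨w ^ (e + 1) * (Q δ - Q δ'), fun j => w ^ (e + 1) * (c δ j - c δ' j),
    A.B.mul_mem (A.B.pow_mem hwB _) (A.B.sub_mem (hQB _) (hQB _)),
    mul_ne_zero (pow_ne_zero _ hw0) hq0,
    fun j => A.B.mul_mem (A.B.pow_mem hwB _) (A.B.sub_mem (hcB _ _) (hcB _ _)), ?_, ?_, ?_⟩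
  · intro j
    have h1 := hf _ _ (hc1 δ j) (hc1 δ' j) (congrFun hff j)
    have h2 : w ^ (e + 1) * (Q δ - Q δ') * x j - w ^ (e + 1) * (c δ j - c δ' j) =
        w ^ (e + 1) * (Q δ * x j - c δ j - (Q δ' * x j - c δ' j)) := by ring
    rw [h2, map_mul, map_pow]
    have h3 : (2 : ℝ) ^ (e + 1) ≤ A.av v0 w ^ (e + 1) := pow_le_pow_left₀ (by norm_num) hw _
    set X := A.av v0 (Q δ * x j - c δ j - (Q δ' * x j - c δ' j))
    set W := A.av v0 w ^ (e + 1) with hWd
    have hXn : 0 ≤ X := (A.av v0).nonneg _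
    have h4 : A.av v0 w ^ s = W * W := by rw [hs, two_mul, pow_add]
    rw [h4] at h1
    have h5 : (2 : ℝ) ^ (e + 1) = 2 * 2 ^ e := by rw [pow_succ]; ring
    have hWn : 0 ≤ W := by positivity
    have h6 : W * X * (2 * 2 ^ e) ≤ 2 := by
      calc W * X * (2 * 2 ^ e) ≤ W * X * W := by
            rw [← h5]; exact mul_le_mul_of_nonneg_left h3 (by positivity)
        _ = X * (W * W) := by ring
        _ ≤ 2 := h1
    linarith
  · rw [map_mul, map_pow, hq']
    have h1 := sum_av (A.av v0) w (fun i => (dg δ i - dg δ' i : k))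
      (fun i => av_d _ (dg_diff δ δ' i)) t
    have h2 := geo hw t
    have h3 : A.av v0 (∑ i ∈ Finset.range t, (dg δ i - dg δ' i : k) * w ^ i) ≤
        A.av v0 w ^ t := by linarith
    have h4 : A.av v0 w ≤ 2 ^ R :=
      hR.trans (by exact_mod_cast (Nat.lt_two_pow_self (n := R)).le)
    have hwn : 0 ≤ A.av v0 w := (A.av v0).nonneg _
    calc A.av v0 w ^ (e + 1) * A.av v0 (∑ i ∈ Finset.range t, (dg δ i - dg δ' i : k) * w ^ i)
        ≤ A.av v0 w ^ (e + 1) * A.av v0 w ^ t := mul_le_mul_of_nonneg_left h3 (by positivity)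
      _ = A.av v0 w ^ (e + 1 + t) := by rw [← pow_add]
      _ ≤ (2 ^ R) ^ (e + 1 + t) := pow_le_pow_left₀ hwn h4 _
      _ = 2 ^ (R * (e + 1 + t)) := by rw [← pow_mul]
      _ ≤ 2 ^ (R * (2 + 2 * b * n) * (e + 1)) := by
          refine pow_le_pow_right₀ (by norm_num) ?_
          rw [mul_assoc]
          refine Nat.mul_le_mul le_rfl ?_
          rw [ht, hs]
          have : (2 + 2 * b * n) * (e + 1) = e + 1 + (b * (2 * (e + 1)) * n) + (e + 1) := by ring
          omega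
  · intro v hvv
    have hvw := hv v hvv
    have hvn : 0 ≤ A.av v w := (A.av v).nonneg _
    have h1 : A.av v w ^ (e + 1) * 2 ^ (e + 1) ≤ 1 := by
      rw [← mul_pow]; exact pow_le_one₀ (by positivity) hvw
    have h5 : (2 : ℝ) ^ (e + 1) = 2 * 2 ^ e := by rw [pow_succ]; ring
    have key : ∀ y : k, A.av v y ≤ 2 → A.av v (w ^ (e + 1) * y) * 2 ^ e ≤ 1 := by
      intro y hy
      rw [map_mul, map_pow]
      calc A.av v w ^ (e + 1) * A.av v y * 2 ^ e ≤ A.av v w ^ (e + 1) * 2 * 2 ^ e := by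
            gcongr
        _ = A.av v w ^ (e + 1) * 2 ^ (e + 1) := by rw [h5]; ring
        _ ≤ 1 := h1
    constructor
    · apply key
      rw [hq']
      exact (sum_av (A.av v) w _ (fun i => av_d _ (dg_diff δ δ' i)) t).trans (geo' hvn hvw t)
    · intro j
      apply key
      calc A.av v (c δ j - c δ' j) = A.av v (c δ j + -c δ' j) := by rw [sub_eq_add_neg]
        _ ≤ A.av v (c δ j) + A.av v (-c δ' j) := (A.av v).add_le _ _
        _ = A.av v (c δ j) + A.av v (c δ' j) := by rw [(A.av v).map_neg]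
        _ ≤ 2 := by linarith [hc2 δ j v hvv, hc2 δ' j v hvv]

/-- Dirichlet: simultaneous approximation at one place by elements small at the others. -/
theorem dir (A : Glob k)
    (hV : ∀ v0, ∃ w : kˣ, (w : k) ∈ A.B ∧ ((w⁻¹ : kˣ) : k) ∈ A.B ∧ 1 < A.av v0 (w : k) ∧
      ∀ v, v ≠ v0 → A.av v (w : k) < 1) (n : ℕ) :
    ∃ C : ℕ, ∀ (v0 : A.I) (e : ℕ) (x : Fin n → k), (∀ j, A.av v0 (x j) ≤ 1) →
      ∃ (q : k) (z : Fin n → k), q ∈ A.B ∧ q ≠ 0 ∧ (∀ j, z j ∈ A.B) ∧
        (∀ j, A.av v0 (q * x j - z j) * 2 ^ e ≤ 1) ∧ A.av v0 q ≤ 2 ^ (C * (e + 1)) ∧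
        ∀ v, v ≠ v0 → A.av v q * 2 ^ e ≤ 1 ∧ ∀ j, A.av v (z j) * 2 ^ e ≤ 1 := by
  have h1 : ∀ v0 : A.I, ∃ w : k, w ∈ A.B ∧ 2 ≤ A.av v0 w ∧ ∀ v, v ≠ v0 → A.av v w * 2 ≤ 1 := by
    intro v0
    obtain ⟨w, hwB, _, hw1, hwv⟩ := hV v0
    obtain ⟨N0, hN0⟩ := pow_unbounded_of_one_lt 2 hw1
    have h2 : ∀ v : A.I, ∃ N : ℕ, v ≠ v0 → A.av v (w : k) ^ N < 1 / 2 := by
      intro v
      by_cases hv : v = v0
      · exact ⟨0, fun h => absurd hv h⟩
      · obtain ⟨N, hN⟩ := exists_pow_lt_of_lt_one (show (0 : ℝ) < 1 / 2 by norm_num) (hwv v hv)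
        exact ⟨N, fun _ => hN⟩
    choose N hN using h2
    refine ⟨(w : k) ^ (N0 + ∑ v, N v), A.B.pow_mem hwB _, ?_, ?_⟩
    · rw [map_pow]
      calc (2 : ℝ) ≤ A.av v0 (w : k) ^ N0 := hN0.le
        _ ≤ A.av v0 (w : k) ^ (N0 + ∑ v, N v) := pow_le_pow_right₀ hw1.le (by omega)
    · intro v hv
      rw [map_pow]
      have h3 : N v ≤ N0 + ∑ v, N v :=
        (Finset.single_le_sum (f := N) (fun _ _ => Nat.zero_le _) (Finset.mem_univ v)).trans
          (Nat.le_add_left _ _)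
      have h4 : A.av v (w : k) ^ (N0 + ∑ v, N v) ≤ A.av v (w : k) ^ (N v) :=
        pow_le_pow_of_le_one ((A.av v).nonneg _) (hwv v hv).le h3
      have h5 := hN v hv
      linarith
  choose w hwB hw hwv using h1
  have h2 : ∀ v0 : A.I, _ := fun v0 => dir_one A v0 (w v0) (hwB v0) (hw v0) (hwv v0) n
  choose C hC using h2
  refine ⟨∑ v, C v, ?_⟩
  intro v0 e x hx
  obtain ⟨q, z, a1, a2, a3, a4, a5, a6⟩ := hC v0 e x hx
  refine ⟨q, z, a1, a2, a3, a4, a5.trans ?_, a6⟩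
  refine pow_le_pow_right₀ (by norm_num) (Nat.mul_le_mul ?_ le_rfl)
  exact Finset.single_le_sum (f := C) (fun _ _ => Nat.zero_le _) (Finset.mem_univ v0)

end Helper79.QG
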